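import Pool.Agent.Lib.ALL_h94.Z2c
import Pool.Agent.Lib.ALL_h42.PB

/-!
# ALL: `p`-coordinates of `k(t)` and of its separable extensions (no valuation)
-/

set_option autoImplicit false

namespace Pool.Agent.ALLh94

open Finset Module
open Pool.Agent.LUA (PB PInd InQ)

universe u

section Adjoin

variable {k L : Type u} [Field k] [Field L] [Algebra k L] {p : ℕ} [hp : Fact p.Prime] [CharP L p]
  {ι : Type} [Fintype ι] [DecidableEq ι]

/-- `k[t] = ∑ t^α k[t]^p`. -/
theorem pb_adjoin (hk : ∀ c : k, ∃ d : k, d ^ p = c) (t : ι → L) :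
    PB p (mon (p := p) t) (Algebra.adjoin k (Set.range t)) := by
  set T := Algebra.adjoin k (Set.range t) with hT
  have ht : ∀ i, t i ∈ T := fun i => Algebra.subset_adjoin ⟨i, rfl⟩
  have hm : ∀ μ : ι → Fin p, mon t μ ∈ T := fun μ =>
    T.prod_mem fun i _ => T.pow_mem (ht i) _
  refine PB.of_gen hk hm ?_ ?_ (Set.range t) ?_ le_rfl
  · have h1 : mon (p := p) t (fun _ => ⟨0, hp.out.pos⟩) = 1 := by
      unfold mon
      exact Finset.prod_eq_one fun i _ => pow_zero _
    rw [← h1]
    exact InQ.base hm _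
  · intro μ ν
    have h1 : mon t μ * mon t ν =
        mon (p := p) t (fun i => ⟨((μ i : ℕ) + ν i) % p, Nat.mod_lt _ hp.out.pos⟩) *
          (∏ i, t i ^ (((μ i : ℕ) + ν i) / p)) ^ p := by
      unfold mon
      rw [← Finset.prod_mul_distrib, ← Finset.prod_pow, ← Finset.prod_mul_distrib]
      refine Finset.prod_congr rfl fun i _ => ?_
      rw [← pow_add, ← pow_mul, ← pow_add]
      congr 1
      rw [mul_comm (((μ i : ℕ) + ν i) / p) p]
      exact (Nat.mod_add_div _ _).symm
    rw [h1]
    exact (InQ.base hm _).mul_pow (T.prod_mem fun i _ => T.pow_mem (ht i) _)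
  · rintro _ ⟨i, rfl⟩
    have h1 : mon (p := p) t (fun j => if j = i then ⟨1, hp.out.one_lt⟩ else ⟨0, hp.out.pos⟩) = t i := by
      unfold mon
      rw [Finset.prod_eq_single i]
      · simp
      · intro j _ hj
        simp [hj]
      · intro hi
        exact absurd (Finset.mem_univ i) hi
    conv_rhs => rw [← h1]
    exact InQ.base hm _

/-- `k(t) = ∑ t^α k(t)^p`. -/
theorem pexp_adjoin (hk : ∀ c : k, ∃ d : k, d ^ p = c) (t : ι → L) :
    PExp p t (IntermediateField.adjoin k (Set.range t) : Set L) := by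
  intro f hf
  have hle := IntermediateField.algebra_adjoin_le_adjoin k (Set.range t)
  obtain ⟨a, ha, b, hb, rfl⟩ := IntermediateField.mem_adjoin_iff_div.1 hf
  by_cases hb0 : b = 0
  · refine ⟨fun _ => 0, fun _ => zero_mem _, ?_⟩
    rw [hb0, div_zero]
    simp [zero_pow hp.out.ne_zero]
  obtain ⟨c, hc, e⟩ := (pb_adjoin hk t).gen (a * b ^ (p - 1)) (mul_mem ha (pow_mem hb _))
  refine ⟨fun α => c α / b, fun α => div_mem (hle (hc α)) (hle hb), ?_⟩
  have h1 : b ^ p = b ^ (p - 1) * b := by
    rw [← pow_succ]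
    congr 1
    have := hp.out.pos
    omega
  have h2 : a / b = (a * b ^ (p - 1)) / b ^ p := by
    rw [h1]
    have h3 : b ^ (p - 1) ≠ 0 := pow_ne_zero _ hb0
    field_simp
  rw [h2, e, Finset.sum_div]
  refine Finset.sum_congr rfl fun α _ => ?_
  rw [div_pow, mul_div_assoc]

/-- If `L` is separable over `k(t)` then `L = ∑ t^α L^p`. -/
theorem pexp_of_sep_adjoin (hk : ∀ c : k, ∃ d : k, d ^ p = c) (t : ι → L)
    (hsep : Algebra.IsSeparable (IntermediateField.adjoin k (Set.range t)) L) :
    PExp p t (Set.univ : Set L) := by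
  set F0 := IntermediateField.adjoin k (Set.range t) with hF0
  have hchar : CharP F0 p := (algebraMap F0 L).charP (algebraMap F0 L).injective p
  have ht : ∀ i, t i ∈ F0 := fun i => IntermediateField.subset_adjoin _ _ ⟨i, rfl⟩
  have h1 : PExp p (fun i => (⟨t i, ht i⟩ : F0)) Set.univ := by
    intro f _
    obtain ⟨c, hc, e⟩ := pexp_adjoin (p := p) hk t (f : L) f.2
    refine ⟨fun α => ⟨c α, hc α⟩, fun _ => trivial, Subtype.ext ?_⟩
    rw [e]
    simp only [mon, AddSubmonoidClass.coe_finsetSum, MulMemClass.coe_mul,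
      SubmonoidClass.coe_finsetProd, SubmonoidClass.coe_pow]
  exact pexp_of_separable (K := F0) (E := L) _ h1

end Adjoin

theorem der_prod_zpow {k E ι : Type*} [Field k] [Field E] [Algebra k E] (δ : Derivation k E E)
    (s : Finset ι) (t : ι → E) (ht : ∀ l, t l ≠ 0) (m : ι → ℤ) (c : ι → E)
    (hc : ∀ l, δ (t l) = c l * t l) :
    δ (∏ l ∈ s, t l ^ m l) = (∑ l ∈ s, (m l : E) * c l) * ∏ l ∈ s, t l ^ m l := by
  classical
  induction s using Finset.induction_on with
  | empty => simp
  | insert l s hl ih =>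
    rw [Finset.prod_insert hl, Finset.sum_insert hl, Derivation.leibniz, ih,
      Derivation.leibniz_zpow, hc]
    have h1 : t l ^ m l = t l ^ (m l - 1) * t l := by
      rw [← zpow_add_one₀ (ht l), sub_add_cancel]
    simp only [smul_eq_mul, zsmul_eq_mul]
    rw [h1]
    ring

end Pool.Agent.ALLh94
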