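import Pool.Agent.Lib.ALL_h94.Z2b
import Pool.Agent.Lib.TA.Basis

/-!
# ALL, block Z, row Z2 (fields): separable extensions and dual derivations

`PExp p t S` : every element of the set `S` is `∑ t^α c_α^p` with `c_α ∈ S`.
-/

set_option autoImplicit false

namespace Pool.Agent.ALLh94

open Finset Module KaehlerDifferential

section General

variable {L : Type*} [Field L] {p : ℕ} [hp : Fact p.Prime] [CharP L p] {ι : Type*} [Fintype ι]
  [DecidableEq ι]

/-- Every element of `S` is `∑ t^α c_α^p` with `c_α ∈ S`. -/
def PExp (p : ℕ) (t : ι → L) (S : Set L) : Prop :=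
  ∀ f ∈ S, ∃ c : (ι → Fin p) → L, (∀ α, c α ∈ S) ∧ f = ∑ α, mon t α * c α ^ p

theorem PExp.add_aux (t : ι → L) {S : Set L} {a b : L}
    (hS : ∀ a ∈ S, ∀ b ∈ S, a + b ∈ S)
    (ha : ∃ c : (ι → Fin p) → L, (∀ α, c α ∈ S) ∧ a = ∑ α, mon t α * c α ^ p)
    (hb : ∃ c : (ι → Fin p) → L, (∀ α, c α ∈ S) ∧ b = ∑ α, mon t α * c α ^ p) :
    ∃ c : (ι → Fin p) → L, (∀ α, c α ∈ S) ∧ a + b = ∑ α, mon t α * c α ^ p := by
  obtain ⟨c, hc, rfl⟩ := ha
  obtain ⟨d, hd, rfl⟩ := hb
  refine ⟨fun α => c α + d α, fun α => hS _ (hc α) _ (hd α), ?_⟩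
  rw [← Finset.sum_add_distrib]
  refine Finset.sum_congr rfl fun α _ => ?_
  rw [add_pow_char]
  ring

end General

section Sep

variable {K E : Type*} [Field K] [Field E] [Algebra K E] {p : ℕ} [hp : Fact p.Prime] [CharP K p]
  [CharP E p] {ι : Type*} [Fintype ι] [DecidableEq ι]

omit hp [CharP K p] [CharP E p] [DecidableEq ι] in
theorem map_mon (t : ι → K) (α : ι → Fin p) :
    algebraMap K E (mon t α) = mon (fun i => algebraMap K E (t i)) α := by
  unfold mon
  rw [map_prod]
  exact Finset.prod_congr rfl fun i _ => by rw [map_pow]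

/-- The `p`-expansion passes to separable algebraic extensions. -/
theorem pexp_of_separable [Algebra.IsSeparable K E] (t : ι → K) (hK : PExp p t Set.univ) :
    PExp p (fun i => algebraMap K E (t i)) (Set.univ : Set E) := by
  have hE : ExpChar K p := ExpChar.prime hp.out
  have h1 : Submodule.span K (Set.range fun a : E => a ^ p ^ 1) = ⊤ :=
    Field.span_map_pow_expChar_pow_eq_top_of_isSeparable (F := K) (E := E) p 1 (v := id) (by
      rw [Set.range_id, Submodule.span_univ])
  intro f _
  have h2 : f ∈ Submodule.span K (Set.range fun a : E => a ^ p ^ 1) := by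
    rw [h1]
    exact Submodule.mem_top
  refine Submodule.span_induction (p := fun f _ => ∃ c : (ι → Fin p) → E, (∀ α, c α ∈ Set.univ) ∧
    f = ∑ α, mon (fun i => algebraMap K E (t i)) α * c α ^ p) ?_ ?_ ?_ ?_ h2
  · rintro _ ⟨a, rfl⟩
    have h3 : (1 : K) ∈ (Set.univ : Set K) := trivial
    obtain ⟨c, -, hc⟩ := hK 1 h3
    refine ⟨fun α => algebraMap K E (c α) * a, fun _ => trivial, ?_⟩
    have h4 := congrArg (algebraMap K E) hc
    rw [map_one, map_sum] at h4
    simp only [pow_one]
    calc a ^ p = 1 * a ^ p := (one_mul _).symm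
      _ = _ := by
        rw [h4, Finset.sum_mul]
        refine Finset.sum_congr rfl fun α _ => ?_
        rw [map_mul, map_pow, map_mon, mul_pow]
        ring
  · refine ⟨fun _ => 0, fun _ => trivial, ?_⟩
    simp [zero_pow hp.out.ne_zero]
  · intro a b _ _ ha hb
    exact PExp.add_aux _ (fun _ _ _ _ => trivial) ha hb
  · intro x a _ ha
    obtain ⟨c, -, rfl⟩ := ha
    obtain ⟨d, -, hd⟩ := hK x trivial
    -- a sum of expansions
    have h5 : ∀ s : Finset (ι → Fin p), ∃ e : (ι → Fin p) → E, (∀ α, e α ∈ Set.univ) ∧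
        ∑ α ∈ s, x • (mon (fun i => algebraMap K E (t i)) α * c α ^ p) =
          ∑ α, mon (fun i => algebraMap K E (t i)) α * e α ^ p := by
      intro s
      induction s using Finset.induction_on with
      | empty =>
        refine ⟨fun _ => 0, fun _ => trivial, ?_⟩
        simp [zero_pow hp.out.ne_zero]
      | insert α s hα ih =>
        rw [Finset.sum_insert hα]
        refine PExp.add_aux _ (fun _ _ _ _ => trivial) ?_ ih
        obtain ⟨e, -, he⟩ := hK (x * mon t α) trivial
        refine ⟨fun β => algebraMap K E (e β) * c α, fun _ => trivial, ?_⟩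
        have h6 := congrArg (algebraMap K E) he
        rw [map_mul, map_sum, map_mon] at h6
        rw [Algebra.smul_def, ← mul_assoc, h6, Finset.sum_mul]
        refine Finset.sum_congr rfl fun β _ => ?_
        rw [map_mul, map_pow, map_mon, mul_pow]
        ring
    obtain ⟨e, he, h⟩ := h5 Finset.univ
    refine ⟨e, he, ?_⟩
    rw [← h, Finset.smul_sum]

end Sep

section Dual

universe u

variable {k K : Type u} [Field k] [Field K] [Algebra k K] {p : ℕ} [hp : Fact p.Prime] [CharP K p]
  {ι : Type} [Fintype ι] [DecidableEq ι]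

omit hp in
/-- The differentials of `t` span. -/
theorem span_D_of_pexp (t : ι → K) (ht : PExp p t Set.univ) :
    ⊤ ≤ Submodule.span K (Set.range fun i => D k K (t i)) := by
  classical
  rw [← KaehlerDifferential.span_range_derivation k K, Submodule.span_le]
  rintro _ ⟨a, rfl⟩
  obtain ⟨c, -, rfl⟩ := ht a trivial
  rw [map_sum, SetLike.mem_coe]
  refine Submodule.sum_mem _ fun α _ => ?_
  have h1 : D k K (c α ^ p) = 0 := by
    rw [Derivation.leibniz_pow, ← Nat.cast_smul_eq_nsmul K, CharP.cast_eq_zero, zero_smul]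
  rw [Derivation.leibniz, h1, smul_zero, zero_add]
  refine Submodule.smul_mem _ _ ?_
  unfold mon
  have h2 : ∀ s : Finset ι, D k K (∏ i ∈ s, t i ^ (α i : ℕ)) ∈
      Submodule.span K (Set.range fun i => D k K (t i)) := by
    intro s
    induction s using Finset.induction_on with
    | empty =>
      rw [Finset.prod_empty, Derivation.map_one_eq_zero]
      exact Submodule.zero_mem _
    | insert i s hi ih =>
      rw [Finset.prod_insert hi, Derivation.leibniz]
      refine Submodule.add_mem _ (Submodule.smul_mem _ _ ih) (Submodule.smul_mem _ _ ?_)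
      rw [Derivation.leibniz_pow, ← Nat.cast_smul_eq_nsmul K]
      exact Submodule.smul_mem _ _ (Submodule.smul_mem _ _ (Submodule.subset_span ⟨i, rfl⟩))
  exact h2 _

omit hp in
/-- `K` is separable over `k(t)`. -/
theorem sep_of_pexp [Algebra.EssFiniteType k K] (t : ι → K) (ht : PExp p t Set.univ) :
    Algebra.IsSeparable (IntermediateField.adjoin k (Set.range t)) K := by
  refine ALB.separable_of_span_D (k := k) (Set.range t) ?_
  rw [← Set.range_comp]
  exact top_le_iff.1 (span_D_of_pexp (k := k) t ht)

omit hp in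
/-- If `K / k` is finitely generated of transcendence degree `card ι` and `K = K^p[t]`, then there are
derivations dual to `t`; they span the derivations. -/
theorem exists_dual_of_pexp [Algebra.EssFiniteType k K]
    (hn : Algebra.trdeg k K = Fintype.card ι) (t : ι → K) (ht : PExp p t Set.univ) :
    ∃ d : ι → Derivation k K K, (∀ i j, d i (t j) = if i = j then 1 else 0) ∧
      ∀ (δ : Derivation k K K) (z : K), δ z = ∑ i, δ (t i) * d i z := by
  classical
  have hspan := span_D_of_pexp (k := k) t ht
  have hle := TA.le_finrank_kaehler (k := k) (K := K) (Fintype.card ι) hn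
  have hfr : finrank K (Ω[K⁄k]) = Fintype.card ι := by
    refine le_antisymm ?_ hle
    have h1 := finrank_range_le_card (R := K) (b := fun i => D k K (t i))
    rw [Set.finrank, top_le_iff.1 hspan, finrank_top] at h1
    exact h1
  have hli : LinearIndependent K fun i => D k K (t i) := by
    rw [linearIndependent_iff_card_le_finrank_span, Set.finrank,
      top_le_iff.1 hspan, finrank_top, hfr]
  obtain ⟨B, hB⟩ : ∃ B : Basis ι K (Ω[K⁄k]), ∀ i, B i = D k K (t i) :=
    ⟨Basis.mk hli hspan, fun i => by rw [Basis.mk_apply]⟩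
  refine ⟨fun i => KaehlerDifferential.linearMapEquivDerivation k K (B.coord i), ?_, ?_⟩
  · intro i j
    have h1 : (KaehlerDifferential.linearMapEquivDerivation k K (B.coord i)) (t j) =
        B.coord i (D k K (t j)) := rfl
    rw [h1, ← hB, Basis.coord_apply, Basis.repr_self, Finsupp.single_apply]
    by_cases h : i = j
    · rw [if_pos h, if_pos h.symm]
    · rw [if_neg h, if_neg (Ne.symm h)]
  · intro δ z
    have h1 : ∀ i, (KaehlerDifferential.linearMapEquivDerivation k K (B.coord i)) z =
        B.coord i (D k K z) := fun _ => rfl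
    have h2 : δ z = δ.liftKaehlerDifferential (D k K z) := by
      rw [Derivation.liftKaehlerDifferential_comp_D]
    have h3 : ∀ i, δ (t i) = δ.liftKaehlerDifferential (B i) := fun i => by
      rw [hB, Derivation.liftKaehlerDifferential_comp_D]
    simp only [h1, h3]
    conv_lhs => rw [h2, ← B.sum_repr (D k K z), map_sum]
    refine Finset.sum_congr rfl fun i _ => ?_
    rw [map_smul, smul_eq_mul, mul_comm, Basis.coord_apply]

end Dual

end Pool.Agent.ALLh94
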