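import Pool.Agent.Lib.ALL_h94.Norm
import Pool.Agent.Lib.ALL_h94.Adj

/-!
# ALL, block Z: `p`-coordinates and dual derivations of a separable extension `E` of the field of a frame, for
an arbitrary positive basis `u` of `Γ`
-/

set_option autoImplicit false

namespace Pool.Agent.ALLh94

open Finset Module
open Pool.Agent.H15JM (RVal)
open Pool.Agent.LU1 (VPos locv FracIs GoodBasis le_locv)
open Pool.Agent.LU1.NFA (mem_frac)
open Pool.Agent.ALL (FR)
open Pool.Agent.TA (CtxR)
open Pool.Agent.LU3 (Ctx0)
open Pool.Agent.LUA (PB PInd InQ)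

universe u

section Main

variable {k Ω : Type u} [Field k] [Field Ω] [Algebra k Ω] {v : RVal Ω} {r D n : ℕ}

/-- **`p`-coordinates of `E`.** `E / K` separable, `K` the field of the frame `B`, `u` a positive basis of `Γ`. -/
theorem exists_coordE (p : ℕ) [hp : Fact p.Prime] [CharP Ω p] (h : CtxR k v n r)
    (hk : ∀ c : k, ∃ d : k, d ^ p = c) (hr : 0 < r) (hn : n = r + D) (B : FR k v D)
    {K E : IntermediateField k Ω} (hB : FracIs B.R K) (hKE : K ≤ E)
    (hsep : ∀ a ∈ E, IsSeparable K a) (hess : Algebra.EssFiniteType k E)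
    {S : Set ℝ} {u : Fin r → ℝ} (hu : GoodBasis B.Γ S u) :
    ∃ t : Fin r ⊕ Fin D → E, (∀ i, (t (Sum.inl i) : Ω) = B.χ (u i)) ∧
      (∀ j, (t (Sum.inr j) : Ω) = B.y j) ∧ PExp p t (Set.univ : Set E) ∧
      ∃ d : Fin r ⊕ Fin D → Derivation k E E, (∀ i j, d i (t j) = if i = j then 1 else 0) ∧
        (∀ (δ : Derivation k E E) (z : E), δ z = ∑ i, δ (t i) * d i z) ∧
        (∀ i, B.LogD (t (Sum.inl i) • d (Sum.inl i))) ∧ ∀ j, B.LogD (d (Sum.inr j)) := by
  classical
  -- a level
  obtain ⟨S0, hS0, hN⟩ := fr_level (r := r) h.toCtx0 hr B ∅ (by simp) hB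
  obtain ⟨u1, hu1⟩ := fr_exists_basis h hr B S0 hS0
  obtain ⟨N, hNx, hNy, -, -, hNK⟩ := hN u1 hu1
  obtain ⟨t1, ht1, hexp1, -⟩ := exists_dual_level p h.toCtx0 hk hn N B hB hNK
  have hcK : CharP K p := (algebraMap K Ω).charP (algebraMap K Ω).injective p
  have hcE : CharP E p := (algebraMap E Ω).charP (algebraMap E Ω).injective p
  let _ : Algebra K E := (IntermediateField.inclusion hKE).toRingHom.toAlgebra
  have hKEmap : ∀ z : K, ((algebraMap K E z : E) : Ω) = z := fun _ => rfl
  have htower : IsScalarTower K E Ω := IsScalarTower.of_algebraMap_eq fun _ => rfl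
  have hsepKE : Algebra.IsSeparable K E := by
    constructor
    intro x
    exact IsSeparable.tower_bot (F := K) (K := E) (E := Ω) (x := x) (hsep _ x.2)
  have hexpE1 := pexp_of_separable (K := K) (E := E) t1 hexp1
  have hsep1 := sep_of_pexp (k := k) _ hexpE1
  -- the given basis
  have hχK : ∀ γ ∈ B.Γ, B.χ γ ∈ K := by
    intro γ hγ
    rcases le_total 0 γ with h0 | h0
    · exact hB.1 _ (B.χ_mem γ hγ h0)
    · have h1 := hB.1 _ (B.χ_mem (-γ) (B.Γ.neg_mem hγ) (by linarith))
      rw [fr_χ_neg B hγ] at h1
      simpa using K.inv_mem h1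
  have hχE : ∀ γ ∈ B.Γ, B.χ γ ∈ E := fun γ hγ => hKE (hχK γ hγ)
  have hyE : ∀ j, B.y j ∈ E := fun j => hKE (hB.1 _ (B.y_mem j))
  set t : Fin r ⊕ Fin D → E := Sum.elim (fun i => ⟨B.χ (u i), hχE _ (hu.mem i)⟩)
    (fun j => ⟨B.y j, hyE j⟩) with ht
  have hadj : IntermediateField.adjoin k (Set.range fun i => algebraMap K E (t1 i)) ≤
      IntermediateField.adjoin k (Set.range t) := by
    rw [IntermediateField.adjoin_le_iff]
    rintro _ ⟨i | j, rfl⟩
    · -- a monomial
      obtain ⟨m, hm⟩ := hu.gen _ (hu1.mem i)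
      have h1 : algebraMap K E (t1 (Sum.inl i)) = ∏ l, t (Sum.inl l) ^ m l := by
        apply Subtype.ext
        rw [hKEmap, ht1]
        change N.x i = _
        rw [hNx, hm, (χ_sum B Finset.univ u hu.mem m).2, SubmonoidClass.coe_finsetProd]
        exact Finset.prod_congr rfl fun l _ => (map_zpow₀ (algebraMap E Ω) (t (Sum.inl l)) (m l)).symm
      rw [SetLike.mem_coe]
      simp only [h1]
      exact prod_mem fun l _ => zpow_mem
        (IntermediateField.subset_adjoin _ _ (Set.mem_range_self (Sum.inl l))) _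
    · have h1 : algebraMap K E (t1 (Sum.inr j)) = t (Sum.inr j) := by
        apply Subtype.ext
        rw [hKEmap, ht1]
        change N.y j = B.y j
        rw [hNy]
      rw [SetLike.mem_coe]
      simp only [h1]
      exact IntermediateField.subset_adjoin _ _ ⟨_, rfl⟩
  have hsep2 : Algebra.IsSeparable (IntermediateField.adjoin k (Set.range t)) E := by
    let _ : Algebra (IntermediateField.adjoin k (Set.range fun i => algebraMap K E (t1 i)))
        (IntermediateField.adjoin k (Set.range t)) :=
      (IntermediateField.inclusion hadj).toRingHom.toAlgebra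
    have htw : IsScalarTower (IntermediateField.adjoin k (Set.range fun i => algebraMap K E (t1 i)))
        (IntermediateField.adjoin k (Set.range t)) E := IsScalarTower.of_algebraMap_eq fun _ => rfl
    exact Algebra.isSeparable_tower_top_of_isSeparable
      (IntermediateField.adjoin k (Set.range fun i => algebraMap K E (t1 i)))
      (IntermediateField.adjoin k (Set.range t)) E
  have hexp := pexp_of_sep_adjoin (p := p) hk t hsep2
  have htr : Algebra.trdeg k E = Fintype.card (Fin r ⊕ Fin D) := by
    have h1 : Algebra.IsAlgebraic K E := inferInstance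
    have h2 : Algebra.trdeg k K + Algebra.trdeg K E = Algebra.trdeg k E := by
      have : IsScalarTower k K E := IsScalarTower.of_algebraMap_eq fun _ => rfl
      exact trdeg_add_eq k K
    have h3 : Algebra.trdeg K E = 0 := _root_.trdeg_eq_zero
    rw [h3, add_zero, trdeg_frac h.toCtx0 B hB] at h2
    rw [← h2, Fintype.card_sum, Fintype.card_fin, Fintype.card_fin, hn]
  obtain ⟨d, hd, hdspan⟩ := exists_dual_of_pexp htr t hexp
  have htne : ∀ l : Fin r, t (Sum.inl l) ≠ 0 := by
    intro l h0
    exact B.χ_ne _ (hu.mem l) (congrArg (fun z : E => (z : Ω)) h0)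
  refine ⟨t, fun _ => rfl, fun _ => rfl, hexp, d, hd, hdspan, ?_, ?_⟩
  · -- logarithmic derivations: the monomials
    intro i
    refine ⟨fun γ hγ => ?_, fun j => ?_⟩
    · obtain ⟨m, hm⟩ := hu.gen γ hγ
      refine ⟨(m i : k), fun e he => ?_⟩
      have h1 : e = ∏ l, t (Sum.inl l) ^ m l := by
        apply Subtype.ext
        rw [he, hm, (χ_sum B Finset.univ u hu.mem m).2, SubmonoidClass.coe_finsetProd]
        exact Finset.prod_congr rfl fun l _ => (map_zpow₀ (algebraMap E Ω) (t (Sum.inl l)) (m l)).symm
      have h2 := der_prod_zpow (t (Sum.inl i) • d (Sum.inl i)) Finset.univ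
        (fun l : Fin r => t (Sum.inl l)) htne m (fun l => if i = l then 1 else 0) (fun l => by
          rw [Derivation.smul_apply, hd, smul_eq_mul]
          by_cases hil : i = l
          · subst hil
            simp
          · rw [if_neg (by simpa using hil), if_neg hil, mul_zero, zero_mul])
      rw [h1] at he ⊢
      rw [h2, ← he]
      have h3 : ∑ l, (m l : E) * (if i = l then 1 else 0) = (m i : E) := by
        rw [Finset.sum_eq_single i]
        · simp
        · intro l _ hl
          rw [if_neg (Ne.symm hl), mul_zero]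
        · intro hi
          exact absurd (Finset.mem_univ i) hi
      rw [h3, map_intCast, MulMemClass.coe_mul]
      rfl
    · refine ⟨0, fun e he => ?_⟩
      have h1 : e = t (Sum.inr j) := Subtype.ext he
      rw [h1, Derivation.smul_apply, hd, if_neg (by simp), smul_zero, map_zero]
      rfl
  · intro j
    refine ⟨fun γ hγ => ?_, fun l => ?_⟩
    · obtain ⟨m, hm⟩ := hu.gen γ hγ
      refine ⟨0, fun e he => ?_⟩
      have h1 : e = ∏ l, t (Sum.inl l) ^ m l := by
        apply Subtype.ext
        rw [he, hm, (χ_sum B Finset.univ u hu.mem m).2, SubmonoidClass.coe_finsetProd]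
        exact Finset.prod_congr rfl fun l _ => (map_zpow₀ (algebraMap E Ω) (t (Sum.inl l)) (m l)).symm
      have h2 := der_prod_zpow (d (Sum.inr j)) Finset.univ
        (fun l : Fin r => t (Sum.inl l)) htne m (fun _ => 0) (fun l => by
          rw [hd, if_neg (by simp), zero_mul])
      rw [h1, h2]
      simp
    · by_cases hjl : j = l
      · subst hjl
        refine ⟨1, fun e he => ?_⟩
        have h1 : e = t (Sum.inr j) := Subtype.ext he
        rw [h1, hd, if_pos rfl, map_one]
        rfl
      · refine ⟨0, fun e he => ?_⟩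
        have h1 : e = t (Sum.inr l) := Subtype.ext he
        rw [h1, hd, if_neg (by simpa using hjl), map_zero]
        rfl

end Main

end Pool.Agent.ALLh94
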