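import Pool.Agent.Lib.ALL_h94.Z2d

/-!
# ALL: `k(χ(Γ), y) ≤ Ω` is algebraic and `K` is separable over it; row BETA (logarithmic derivations)
-/

set_option autoImplicit false

namespace Pool.Agent.ALLh94

open Finset Module
open Pool.Agent.H15JM (RVal)
open Pool.Agent.LU1 (VPos locv FracIs GoodBasis le_locv locv_mono locv_le locv_inv)
open Pool.Agent.LU1.NFA (mem_frac isAlgebraic_of_frac)
open Pool.Agent.ALL (FR BetaStmt)
open Pool.Agent.TA (CtxR)
open Pool.Agent.LU3 (Ctx0)

universe u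

variable {k Ω : Type u} [Field k] [Field Ω] [Algebra k Ω] {v : RVal Ω} {r D n : ℕ}

/-- The parameters of a level are algebraically independent. -/
theorem NFD.algInd (p : ℕ) [hp : Fact p.Prime] [CharP Ω p] (N : NFD k v r D) (h : Ctx0 k v n)
    (hk : ∀ c : k, ∃ d : k, d ^ p = c) (hn : n = r + D) (B : FR k v D)
    {K : IntermediateField k Ω} (hB : FracIs B.R K) (hK : FracIs N.R K) :
    AlgebraicIndependent k N.t := by
  obtain ⟨t, ht, hexp, -⟩ := exists_dual_level p h hk hn N B hB hK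
  have hchar : CharP K p := (algebraMap K Ω).charP (algebraMap K Ω).injective p
  have hess : Algebra.EssFiniteType k K := frac_ess N hK
  have hsep := sep_of_pexp (k := k) t hexp
  have h1 : Algebra.IsAlgebraic (Algebra.adjoin k (Set.range t)) K := by
    have h2 : Algebra.IsAlgebraic (IntermediateField.adjoin k (Set.range t)) K := inferInstance
    constructor
    intro x
    rw [← IntermediateField.isAlgebraic_adjoin_iff]
    exact h2.isAlgebraic x
  have h3 : AlgebraicIndependent k t := by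
    refine (Algebra.IsAlgebraic.isTranscendenceBasis_of_lift_le_trdeg_of_finite k t ?_).1
    rw [trdeg_frac h B hB, hn]
    simp
  have h4 := h3.map' (f := K.val) K.val.injective
  have h5 : (K.val ∘ t) = N.t := funext ht
  rwa [h5] at h4

/-- **K1.** `Ω` is algebraic over `k[χ(Γ), y]`. -/
theorem fr_alg0 (p : ℕ) [hp : Fact p.Prime] [CharP Ω p] (h : CtxR k v n r)
    (hk : ∀ c : k, ∃ d : k, d ^ p = c) (hr : 0 < r) (hn : n = r + D) (B : FR k v D) (g : Ω) :
    IsAlgebraic (Algebra.adjoin k (B.χ '' (B.Γ : Set ℝ) ∪ Set.range B.y)) g := by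
  have hB : FracIs B.R (IntermediateField.adjoin k (B.R : Set Ω)) :=
    ⟨fun f hf => IntermediateField.subset_adjoin _ _ hf, fun g hg => mem_frac.1 hg⟩
  obtain ⟨S0, hS0, hN⟩ := fr_level (r := r) h.toCtx0 hr B ∅ (by simp) hB
  obtain ⟨u, hu⟩ := fr_exists_basis h hr B S0 hS0
  obtain ⟨N, hNx, hNy, -, -, hK⟩ := hN u hu
  have hind := N.algInd p h.toCtx0 hk hn B hB hK
  have h2 : IsTranscendenceBasis k N.t := by
    refine hind.isTranscendenceBasis_of_lift_trdeg_le_of_finite ?_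
    rw [h.trdeg, hn]
    simp
  obtain ⟨P, hP, hPg⟩ := h2.isAlgebraic.isAlgebraic g
  have hle : Algebra.adjoin k (Set.range N.t) ≤
      Algebra.adjoin k (B.χ '' (B.Γ : Set ℝ) ∪ Set.range B.y) := by
    refine Algebra.adjoin_mono ?_
    rintro _ ⟨i | j, rfl⟩
    · exact Or.inl ⟨u i, hu.mem i, (hNx i).symm⟩
    · refine Or.inr ⟨j, ?_⟩
      rw [← hNy]
      rfl
  refine ⟨P.map (Subalgebra.inclusion hle).toRingHom, ?_, ?_⟩
  · exact (Polynomial.map_ne_zero_iff (Subalgebra.inclusion_injective hle)).2 hP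
  · rw [Polynomial.aeval_def, Polynomial.eval₂_map]
    exact hPg

theorem perfect_of_isAlgClosed [IsAlgClosed k] {p : ℕ} [hp : Fact p.Prime] (c : k) :
    ∃ d : k, d ^ p = c := IsAlgClosed.exists_pow_nat_eq c hp.out.pos

theorem der_sum_apply {R A ι : Type*} [CommRing R] [CommRing A] [Algebra R A] (s : Finset ι)
    (f : ι → Derivation R A A) (z : A) : (∑ i ∈ s, f i) z = ∑ i ∈ s, f i z := by
  classical
  induction s using Finset.induction_on with
  | empty => simp
  | insert i s hi ih => rw [Finset.sum_insert hi, Finset.sum_insert hi, Derivation.add_apply, ih]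

/-- **Row BETA.** A frame has logarithmic derivations. -/
theorem beta (k : Type u) [Field k] [IsAlgClosed k] (p : ℕ) [hp : Fact p.Prime] [CharP k p] (n : ℕ) :
    BetaStmt k n := by
  classical
  intro Ω _ _ _ v r D h hr hn F K hK φ hφ c
  have hcΩ : CharP Ω p := charP_of_injective_algebraMap (algebraMap k Ω).injective p
  have hk : ∀ c : k, ∃ d : k, d ^ p = c := fun c => perfect_of_isAlgClosed c
  obtain ⟨S0, hS0, hN⟩ := fr_level (r := r) h.toCtx0 hr F ∅ (by simp) hK
  obtain ⟨u, hu⟩ := fr_exists_basis h hr F S0 hS0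
  obtain ⟨N, hNx, hNy, -, -, hNK⟩ := hN u hu
  obtain ⟨t, ht, hexp, d, hd, -⟩ := exists_dual_level p h.toCtx0 hk hn N F hK hNK
  have htx : ∀ i, (t (Sum.inl i) : Ω) = F.χ (u i) := fun i => by rw [ht]; exact hNx i
  have hty : ∀ j, (t (Sum.inr j) : Ω) = F.y j := fun j => by
    rw [ht]
    change N.y j = F.y j
    rw [hNy]
  set δ : Derivation k K K := ∑ i, (algebraMap k K (φ (u i)) * t (Sum.inl i)) • d (Sum.inl i) +
    ∑ j, algebraMap k K (c j) • d (Sum.inr j) with hδ
  have hδa : ∀ z : K, δ z = ∑ i, (algebraMap k K (φ (u i)) * t (Sum.inl i)) * d (Sum.inl i) z +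
      ∑ j, algebraMap k K (c j) * d (Sum.inr j) z := by
    intro z
    rw [hδ, Derivation.add_apply, der_sum_apply, der_sum_apply]
    simp only [Derivation.smul_apply, smul_eq_mul]
  have hδx : ∀ i, δ (t (Sum.inl i)) = algebraMap k K (φ (u i)) * t (Sum.inl i) := by
    intro i
    rw [hδa, Finset.sum_eq_single i, hd, if_pos rfl, mul_one, Finset.sum_eq_zero, add_zero]
    · intro j _
      rw [hd, if_neg (by simp), mul_zero]
    · intro j _ hj
      rw [hd, if_neg (by simpa using hj), mul_zero]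
    · intro hi
      exact absurd (Finset.mem_univ i) hi
  have hδy : ∀ j, δ (t (Sum.inr j)) = algebraMap k K (c j) := by
    intro j
    rw [hδa, Finset.sum_eq_zero, zero_add, Finset.sum_eq_single j, hd, if_pos rfl, mul_one]
    · intro i _ hi
      rw [hd, if_neg (by simpa using hi), mul_zero]
    · intro hi
      exact absurd (Finset.mem_univ j) hi
    · intro i _
      rw [hd, if_neg (by simp), mul_zero]
  have hφ0 : φ 0 = 0 := by
    have h1 := hφ 0 F.Γ.zero_mem 0 F.Γ.zero_mem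
    rw [add_zero] at h1
    exact left_eq_add.1 h1
  have hφneg : ∀ γ ∈ F.Γ, φ (-γ) = - φ γ := by
    intro γ hγ
    have h1 := hφ γ hγ (-γ) (F.Γ.neg_mem hγ)
    rw [add_neg_cancel, hφ0] at h1
    exact (neg_eq_of_add_eq_zero_right h1.symm).symm
  have hχK : ∀ γ ∈ F.Γ, F.χ γ ∈ K := by
    intro γ hγ
    rcases le_total 0 γ with h0 | h0
    · exact hK.1 _ (F.χ_mem γ hγ h0)
    · have h1 := hK.1 _ (F.χ_mem (-γ) (F.Γ.neg_mem hγ) (by linarith))
      rw [fr_χ_neg F hγ] at h1
      simpa using K.inv_mem h1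
  -- the good exponents
  let H : AddSubgroup ℝ :=
    { carrier := {γ | γ ∈ F.Γ ∧ ∀ e : K, (e : Ω) = F.χ γ → δ e = algebraMap k K (φ γ) * e}
      add_mem' := by
        rintro γ γ' ⟨hγ, h1⟩ ⟨hγ', h2⟩
        refine ⟨F.Γ.add_mem hγ hγ', fun e he => ?_⟩
        have h3 : e = (⟨F.χ γ, hχK γ hγ⟩ : K) * ⟨F.χ γ', hχK γ' hγ'⟩ := by
          apply Subtype.ext
          rw [he, F.χ_add γ hγ γ' hγ']
          rfl
        rw [h3, Derivation.leibniz, h2 _ rfl, h1 _ rfl, hφ γ hγ γ' hγ', map_add, smul_eq_mul,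
          smul_eq_mul]
        ring
      zero_mem' := by
        refine ⟨F.Γ.zero_mem, fun e he => ?_⟩
        have h3 : e = 1 := by
          apply Subtype.ext
          rw [he, fr_χ_zero F]
          rfl
        rw [h3, hφ0, map_zero, zero_mul, Derivation.map_one_eq_zero]
      neg_mem' := by
        rintro γ ⟨hγ, h1⟩
        refine ⟨F.Γ.neg_mem hγ, fun e he => ?_⟩
        have h3 : e * (⟨F.χ γ, hχK γ hγ⟩ : K) = 1 := by
          apply Subtype.ext
          change (e : Ω) * F.χ γ = 1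
          rw [he, fr_χ_neg F hγ, inv_mul_cancel₀ (F.χ_ne γ hγ)]
        have h4 : δ (e * (⟨F.χ γ, hχK γ hγ⟩ : K)) = 0 := by
          rw [h3, Derivation.map_one_eq_zero]
        have h0 : (⟨F.χ γ, hχK γ hγ⟩ : K) ≠ 0 := by
          intro h5
          exact F.χ_ne γ hγ (congrArg (fun z : K => (z : Ω)) h5)
        rw [Derivation.leibniz, h1 _ rfl, smul_eq_mul, smul_eq_mul] at h4
        rw [hφneg γ hγ, map_neg]
        have h6 : (⟨F.χ γ, hχK γ hγ⟩ : K) * (δ e + algebraMap k K (φ γ) * e) = 0 := by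
          rw [← h4]
          ring
        rcases mul_eq_zero.1 h6 with h7 | h7
        · exact absurd h7 h0
        · rw [neg_mul]
          exact eq_neg_of_add_eq_zero_left h7 }
  have hHu : ∀ i, u i ∈ H := by
    intro i
    refine ⟨hu.mem i, fun e he => ?_⟩
    have h3 : e = t (Sum.inl i) := Subtype.ext (by rw [he, htx])
    rw [h3, hδx]
  have hH : ∀ γ ∈ F.Γ, γ ∈ H := by
    intro γ hγ
    obtain ⟨m, rfl⟩ := hu.gen γ hγ
    refine H.sum_mem fun i _ => ?_
    rw [← zsmul_eq_mul]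
    exact H.zsmul_mem (hHu i) _
  have hδχ : ∀ γ ∈ F.Γ, ∀ e : K, (e : Ω) = F.χ γ → (δ e : Ω) = algebraMap k Ω (φ γ) * F.χ γ := by
    intro γ hγ e he
    rw [(hH γ hγ).2 e he, ← he]
    rfl
  have hδy' : ∀ j, ∀ e : K, (e : Ω) = F.y j → (δ e : Ω) = algebraMap k Ω (c j) := by
    intro j e he
    have h3 : e = t (Sum.inr j) := Subtype.ext (by rw [he, hty])
    rw [h3, hδy]
    rfl
  refine ⟨δ, hδχ, hδy', ?_⟩
  -- the stable subring
  have hcK : CharP K p := (algebraMap K Ω).charP (algebraMap K Ω).injective p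
  let T : Subring K :=
    { carrier := {z | (z : Ω) ∈ F.R ∧ (δ z : Ω) ∈ F.R}
      mul_mem' := by
        rintro a b ⟨ha, ha'⟩ ⟨hb, hb'⟩
        refine ⟨F.R.mul_mem ha hb, ?_⟩
        rw [Derivation.leibniz]
        exact F.R.add_mem (F.R.mul_mem ha hb') (F.R.mul_mem hb ha')
      one_mem' := ⟨F.R.one_mem, by rw [Derivation.map_one_eq_zero]; exact F.R.zero_mem⟩
      add_mem' := by
        rintro a b ⟨ha, ha'⟩ ⟨hb, hb'⟩
        refine ⟨F.R.add_mem ha hb, ?_⟩
        rw [map_add]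
        exact F.R.add_mem ha' hb'
      zero_mem' := ⟨F.R.zero_mem, by rw [map_zero]; exact F.R.zero_mem⟩
      neg_mem' := by
        rintro a ⟨ha, ha'⟩
        refine ⟨F.R.neg_mem ha, ?_⟩
        rw [map_neg]
        exact F.R.neg_mem ha' }
  intro e he
  obtain ⟨S1, hS1, hN1⟩ := fr_level (r := r) h.toCtx0 hr F {(e : Ω)} (by simpa using he) hK
  obtain ⟨u', hu'⟩ := fr_exists_basis h hr F S1 hS1
  obtain ⟨N', hN'x, hN'y, hN'le, hN'T, -⟩ := hN1 u' hu'
  obtain ⟨a, ha, hea⟩ := N'.pexp h.toCtx0 hk (e : Ω) (hN'T _ (by simp))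
  have haK : ∀ α, a α ∈ K := fun α => hK.1 _ (hN'le (ha α))
  have htK : ∀ i, N'.t i ∈ K := by
    rintro (i | j)
    · exact hK.1 _ (hN'le (N'.x_mem i))
    · exact hK.1 _ (hN'le (N'.y_mem j))
  have htT : ∀ i, (⟨N'.t i, htK i⟩ : K) ∈ T := by
    rintro (i | j)
    · have h1 : ((⟨N'.t (Sum.inl i), htK (Sum.inl i)⟩ : K) : Ω) = F.χ (u' i) := hN'x i
      refine ⟨hN'le (N'.x_mem i), ?_⟩
      rw [hδχ (u' i) (hu'.mem i) _ h1]
      exact F.R.mul_mem (F.R.algebraMap_mem _) (F.χ_mem _ (hu'.mem i) (hu'.pos i).le)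
    · have h1 : ((⟨N'.t (Sum.inr j), htK (Sum.inr j)⟩ : K) : Ω) = F.y j := by
        change N'.y j = F.y j
        rw [hN'y]
      refine ⟨hN'le (N'.y_mem j), ?_⟩
      rw [hδy' j _ h1]
      exact F.R.algebraMap_mem _
  have hee : e = ∑ α, mon (fun i => (⟨N'.t i, htK i⟩ : K)) α * (⟨a α, haK α⟩ : K) ^ p := by
    apply Subtype.ext
    rw [hea]
    simp only [mon, AddSubmonoidClass.coe_finsetSum, MulMemClass.coe_mul,
      SubmonoidClass.coe_finsetProd, SubmonoidClass.coe_pow]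
  have heT : e ∈ T := by
    rw [hee]
    refine T.sum_mem fun α _ => T.mul_mem (T.prod_mem fun i _ => T.pow_mem (htT i) _) ?_
    refine ⟨F.R.pow_mem (hN'le (ha α)) _, ?_⟩
    rw [Derivation.leibniz_pow, nsmul_eq_mul, CharP.cast_eq_zero, zero_mul]
    exact F.R.zero_mem
  exact heT.2

end Pool.Agent.ALLh94
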