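import Pool.Agent.Lib.ALL_h94.NFD

/-!
# ALL: the maximal ideal of a noetherian level `NFD`; noetherian, local, Krull
-/

set_option autoImplicit false

open Polynomial

namespace Pool.Agent.ALLh94

open Pool.Agent.H15JM (RVal)
open Pool.Agent.LU1 (VPos locv le_locv locv_inv locv_isNoetherian VPos.zero VPos.mul')

universe u

variable {k Ω : Type u} [Field k] [Field Ω] [Algebra k Ω] {v : RVal Ω} {r D : ℕ}

/-- The maximal ideal of a noetherian frame. -/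
noncomputable def NFD.m (N : NFD k v r D) : Ideal N.R :=
  Ideal.span ({z | ∃ i, (z : Ω) = N.x i} ∪ {z | ∃ j, (z : Ω) = N.y j})

/-- `e ∈ m^M`. -/
def NFD.InPow (N : NFD k v r D) (M : ℕ) (e : Ω) : Prop := ∃ z : N.R, z ∈ N.m ^ M ∧ (z : Ω) = e

theorem NFD.isNoetherian (N : NFD k v r D) : IsNoetherianRing N.R := by
  obtain ⟨F, hF⟩ := N.fgen
  rw [hF]
  exact locv_isNoetherian _ ⟨F, rfl⟩

theorem NFD.inv_mem (N : NFD k v r D) {f : Ω} (hf : f ∈ N.R) (h0 : f ≠ 0) (h1 : v f = 0) :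
    f⁻¹ ∈ N.R := by
  obtain ⟨F, hF⟩ := N.fgen
  rw [hF] at hf ⊢
  exact locv_inv hf h0 h1

theorem NFD.isUnit_of (N : NFD k v r D) (z : N.R) (h0 : (z : Ω) ≠ 0) (h1 : v (z : Ω) = 0) :
    IsUnit z :=
  IsUnit.of_mul_eq_one ⟨(z : Ω)⁻¹, N.inv_mem z.2 h0 h1⟩ (Subtype.ext (mul_inv_cancel₀ h0))

theorem NFD.vpos_of_not_isUnit (N : NFD k v r D) (z : N.R) (hz : ¬ IsUnit z) : VPos v (z : Ω) := by
  intro h0
  rcases (N.nonneg z z.2 h0).lt_or_eq with h1 | h1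
  · exact h1
  · exact absurd (N.isUnit_of z h0 h1.symm) hz

theorem NFD.not_isUnit_of_vpos (N : NFD k v r D) (z : N.R) (hz : VPos v (z : Ω)) : ¬ IsUnit z := by
  rintro ⟨u, rfl⟩
  have h1 : ((u : N.R) : Ω) * ((u⁻¹ : N.Rˣ) : N.R) = 1 := by
    rw [← Subalgebra.coe_mul, Units.mul_inv, Subalgebra.coe_one]
  have h2 : ((u : N.R) : Ω) ≠ 0 := left_ne_zero_of_mul (h1 ▸ one_ne_zero)
  have h3 : (((u⁻¹ : N.Rˣ) : N.R) : Ω) ≠ 0 := right_ne_zero_of_mul (h1 ▸ one_ne_zero)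
  have h4 := v.map_mul h2 h3
  rw [h1, v.map_one] at h4
  have h5 := hz h2
  have h6 := N.nonneg _ ((u⁻¹ : N.Rˣ) : N.R).2 h3
  linarith

theorem NFD.isLocalRing (N : NFD k v r D) : IsLocalRing N.R := by
  refine IsLocalRing.of_nonunits_add fun a b ha hb => ?_
  apply N.not_isUnit_of_vpos
  rw [Subalgebra.coe_add]
  exact (N.vpos_of_not_isUnit a ha).add (N.vpos_of_not_isUnit b hb)

theorem NFD.vpos_of_mem_m (N : NFD k v r D) (z : N.R) (hz : z ∈ N.m) : VPos v (z : Ω) := by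
  unfold NFD.m at hz
  induction hz using Submodule.span_induction with
  | mem x hx =>
    rcases hx with ⟨i, hx⟩ | ⟨j, hx⟩
    · rw [hx]; exact fun _ => N.x_pos i
    · rw [hx]; exact fun _ => N.y_pos j
  | zero => exact VPos.zero
  | add x y _ _ hx hy => rw [Subalgebra.coe_add]; exact hx.add hy
  | smul a x _ hx =>
    rw [smul_eq_mul, Subalgebra.coe_mul]
    exact VPos.mul' (N.nonneg a a.2) hx

theorem NFD.mem_m_of_vpos (N : NFD k v r D) (z : N.R) (hz : VPos v (z : Ω)) : z ∈ N.m := by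
  obtain ⟨a, ha, b, hb, h⟩ := N.gen z z.2 hz
  have h1 : z = ∑ i, (⟨N.x i, N.x_mem i⟩ : N.R) * ⟨a i, ha i⟩ +
      ∑ j, (⟨N.y j, N.y_mem j⟩ : N.R) * ⟨b j, hb j⟩ := by
    apply Subtype.ext
    rw [Subalgebra.coe_add, AddSubmonoidClass.coe_finsetSum, AddSubmonoidClass.coe_finsetSum, h]
    simp
  rw [h1]
  refine Ideal.add_mem _ (Ideal.sum_mem _ fun i _ => Ideal.mul_mem_right _ _ ?_)
    (Ideal.sum_mem _ fun j _ => Ideal.mul_mem_right _ _ ?_)
  · exact Ideal.subset_span (Or.inl ⟨i, rfl⟩)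
  · exact Ideal.subset_span (Or.inr ⟨j, rfl⟩)

theorem NFD.mem_m_iff (N : NFD k v r D) (z : N.R) : z ∈ N.m ↔ VPos v (z : Ω) :=
  ⟨N.vpos_of_mem_m z, N.mem_m_of_vpos z⟩

theorem NFD.m_ne_top (N : NFD k v r D) : N.m ≠ ⊤ := by
  intro h
  have h1 : (1 : N.R) ∈ N.m := by rw [h]; trivial
  have h2 := N.vpos_of_mem_m 1 h1 (by simp)
  rw [Subalgebra.coe_one, v.map_one] at h2
  exact lt_irrefl _ h2

theorem NFD.m_eq (N : NFD k v r D) [IsLocalRing N.R] : N.m = IsLocalRing.maximalIdeal N.R := by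
  ext z
  rw [N.mem_m_iff, IsLocalRing.mem_maximalIdeal, mem_nonunits_iff]
  exact ⟨N.not_isUnit_of_vpos z, N.vpos_of_not_isUnit z⟩

/-- Krull, abstract form. -/
theorem krull_abs {R : Type*} [CommRing R] [IsNoetherianRing R] [IsLocalRing R] (m : Ideal R)
    (hm : m ≠ ⊤) (I : Ideal R) (a : R) (h : ∀ M : ℕ, a ∈ I ⊔ m ^ M) : a ∈ I := by
  have hK := Ideal.iInf_pow_smul_eq_bot_of_isLocalRing (M := R ⧸ I) m hm
  have h1 : (Ideal.Quotient.mk I a) ∈ (⨅ i : ℕ, m ^ i • (⊤ : Submodule R (R ⧸ I))) := by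
    rw [Submodule.mem_iInf]
    intro M
    obtain ⟨b, hb, z, hz, rfl⟩ := Submodule.mem_sup.1 (h M)
    have h2 : (Ideal.Quotient.mk I (b + z)) = z • (1 : R ⧸ I) := by
      rw [Algebra.smul_def, mul_one, Ideal.Quotient.algebraMap_eq, Ideal.Quotient.eq,
        add_sub_cancel_right]
      exact hb
    rw [h2]
    exact Submodule.smul_mem_smul hz trivial
  rw [hK, Submodule.mem_bot, Ideal.Quotient.eq_zero_iff_mem] at h1
  exact h1

/-- Krull: the ideals of `N.R` are closed for the `m`-adic topology. -/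
theorem NFD.krull_ideal (N : NFD k v r D) (I : Ideal N.R) (a : N.R) (h : ∀ M : ℕ, a ∈ I ⊔ N.m ^ M) :
    a ∈ I := by
  have := N.isNoetherian
  have := N.isLocalRing
  exact krull_abs N.m N.m_ne_top I a h

/-- Krull: an element of `b R + m^M` for all `M` is in `b R`. -/
theorem NFD.krull (N : NFD k v r D) (a b : Ω) (ha : a ∈ N.R) (hb : b ∈ N.R)
    (hab : ∀ M, ∃ z ∈ N.R, N.InPow M (a - b * z)) : ∃ z ∈ N.R, a = b * z := by
  have h1 : (⟨a, ha⟩ : N.R) ∈ Ideal.span {(⟨b, hb⟩ : N.R)} := by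
    refine N.krull_ideal _ _ fun M => ?_
    obtain ⟨z, hz, w, hw, hw'⟩ := hab M
    have h2 : (⟨a, ha⟩ : N.R) = ⟨b, hb⟩ * ⟨z, hz⟩ + w := by
      apply Subtype.ext
      rw [Subalgebra.coe_add, Subalgebra.coe_mul, hw']
      ring
    rw [h2]
    exact Submodule.add_mem_sup (Ideal.mul_mem_right _ _ (Ideal.mem_span_singleton_self _)) hw
  obtain ⟨z, hz⟩ := Ideal.mem_span_singleton'.1 h1
  exact ⟨z, z.2, by
    have h3 := congrArg (fun z : N.R => (z : Ω)) hz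
    simp only [Subalgebra.coe_mul] at h3
    rw [mul_comm]
    exact h3.symm⟩

/-- Krull: an element of all `m^M` is zero. -/
theorem NFD.krull_zero (N : NFD k v r D) (a : Ω) (h : ∀ M, N.InPow M a) : a = 0 := by
  obtain ⟨z, -, hz⟩ := h 0
  have h1 : z ∈ (⊥ : Ideal N.R) := by
    refine N.krull_ideal _ _ fun M => ?_
    obtain ⟨w, hw, hwa⟩ := h M
    have h2 : z = w := Subtype.ext (hz.trans hwa.symm)
    rw [h2]
    exact Submodule.mem_sup_right hw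
  rw [Ideal.mem_bot] at h1
  rw [← hz, h1]
  rfl

/-- A subalgebra containing `N.R` in which `ε` divides the parameters: `ε ^ M` divides the
elements of `m^M`. -/
theorem NFD.inPow_dvd (N : NFD k v r D) (S : Subalgebra k Ω) (hS : N.R ≤ S) (ε : Ω)
    (hx : ∀ i, ∃ a ∈ S, N.x i = ε * a) (hy : ∀ j, ∃ a ∈ S, N.y j = ε * a) (M : ℕ) (e : Ω)
    (he : N.InPow M e) : ∃ a ∈ S, e = ε ^ M * a := by
  let J : Ω → Ideal N.R := fun d =>
    { carrier := {z | ∃ a ∈ S, (z : Ω) = d * a}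
      add_mem' := by
        rintro z w ⟨a, ha, hz⟩ ⟨b, hb, hw⟩
        exact ⟨a + b, S.add_mem ha hb, by rw [Subalgebra.coe_add, hz, hw]; ring⟩
      zero_mem' := ⟨0, S.zero_mem, by simp⟩
      smul_mem' := by
        rintro c z ⟨a, ha, hz⟩
        exact ⟨c * a, S.mul_mem (hS c.2) ha, by rw [smul_eq_mul, Subalgebra.coe_mul, hz]; ring⟩ }
  have h1 : N.m ≤ J ε := by
    refine Ideal.span_le.2 ?_
    rintro z (⟨i, hz⟩ | ⟨j, hz⟩)
    · obtain ⟨a, ha, h⟩ := hx i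
      exact ⟨a, ha, hz.trans h⟩
    · obtain ⟨a, ha, h⟩ := hy j
      exact ⟨a, ha, hz.trans h⟩
  have h2 : ∀ M, N.m ^ M ≤ J (ε ^ M) := by
    intro M
    induction M with
    | zero =>
      intro z _
      exact ⟨z, hS z.2, by simp⟩
    | succ M ih =>
      rw [pow_succ]
      refine Ideal.mul_le.2 fun z hz w hw => ?_
      obtain ⟨a, ha, hz'⟩ := ih hz
      obtain ⟨b, hb, hw'⟩ := h1 hw
      exact ⟨a * b, S.mul_mem ha hb, by rw [Subalgebra.coe_mul, hz', hw']; ring⟩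
  obtain ⟨z, hz, rfl⟩ := he
  exact h2 M hz

end Pool.Agent.ALLh94
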