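import Mathlib

/-!
# ALL, block Z, row Z2a: coordinates with respect to a `p`-basis are obtained by derivations

`t : ι → L`, `ι` finite, derivations `d i` with `d i (t j) = δ_ij` (no commutation is assumed). If
`a = ∑_α t^α (c α)^p`, then the `c α` are unique, and if `S` is an additive subgroup of `L`, stable under the `d i` and
under multiplication by the `t i`, with `a ^ p ∈ S → a ∈ S`, then `a ∈ S` implies `c α ∈ S` for all `α`.
-/

set_option autoImplicit false

namespace Pool.Agent.ALLh94

open Finset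

section Falling

variable {L : Type*} [Field L]

/-- `d^k (t^N m) = N (N-1) .. (N-k+1) t^(N-k) m`, if `d t = 1`, `d m = 0`. -/
theorem iter_pow (d : Derivation ℤ L L) {t m : L} (ht : d t = 1) (hm : d m = 0) (N k : ℕ) :
    (⇑d)^[k] (t ^ N * m) = ((N.descFactorial k : ℕ) : L) * (t ^ (N - k) * m) := by
  induction k with
  | zero => simp
  | succ k ih =>
    rw [Function.iterate_succ_apply', ih, Derivation.leibniz, Derivation.leibniz, hm, smul_zero, zero_add,
      Derivation.leibniz_pow, ht, Derivation.map_natCast, smul_zero, add_zero]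
    by_cases hk : k < N
    · have h1 : N - (k + 1) = N - k - 1 := by omega
      rw [Nat.descFactorial_succ, h1]
      simp only [smul_eq_mul, nsmul_eq_mul, mul_one, Nat.cast_mul]
      ring
    · have h1 : N - k = 0 := by omega
      rw [Nat.descFactorial_succ, h1]
      simp

variable {p : ℕ} [hp : Fact p.Prime] [CharP L p]

theorem cast_factorial : (((p - 1).factorial : ℕ) : L) = -1 := by
  have h1 : (((p - 1).factorial : ℕ) : ZMod p) = -1 := ZMod.wilsons_lemma p
  have h2 : (((p - 1).factorial + 1 : ℕ) : ZMod p) = 0 := by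
    rw [Nat.cast_add, h1]
    simp
  have h3 : p ∣ (p - 1).factorial + 1 := (ZMod.natCast_eq_zero_iff _ _).1 h2
  have h4 : (((p - 1).factorial + 1 : ℕ) : L) = 0 := (CharP.cast_eq_zero_iff L p _).2 h3
  rw [Nat.cast_add, Nat.cast_one] at h4
  exact eq_neg_of_add_eq_zero_left h4

/-- the case `α ≠ e` -/
theorem cast_desc_ne {α e : ℕ} (hα : α < p) (he : e < p) (hne : α ≠ e) :
    (((p - 1 - e + α).descFactorial (p - 1) : ℕ) : L) = 0 := by
  rcases lt_or_gt_of_ne hne with h | h
  · rw [Nat.descFactorial_eq_zero_iff_lt.2 (by omega), Nat.cast_zero]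
  · rw [CharP.cast_eq_zero_iff L p]
    have h1 := Nat.factorial_mul_descFactorial (n := p - 1 - e + α) (k := p - 1) (by omega)
    have h2 : p ∣ (p - 1 - e + α).factorial := (hp.out.dvd_factorial).2 (by omega)
    rw [← h1] at h2
    rcases (hp.out.dvd_mul).1 h2 with h3 | h3
    · rw [hp.out.dvd_factorial] at h3
      omega
    · exact h3

theorem cast_desc_eq {e : ℕ} (he : e < p) :
    (((p - 1 - e + e).descFactorial (p - 1) : ℕ) : L) = -1 := by
  have h1 : p - 1 - e + e = p - 1 := by omega
  rw [h1, Nat.descFactorial_self, cast_factorial]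

end Falling

section Coord

variable {L : Type*} [Field L] {p : ℕ} [hp : Fact p.Prime] [CharP L p] {ι : Type*} [Fintype ι] [DecidableEq ι]

/-- The monomial `t^α`. -/
def mon (t : ι → L) (α : ι → Fin p) : L := ∏ i, t i ^ (α i : ℕ)

/-- The part of the monomial outside `s`. -/
def monOff (t : ι → L) (s : Finset (ι)) (α : ι → Fin p) : L := ∏ i ∈ sᶜ, t i ^ (α i : ℕ)

omit hp [CharP L p] in
theorem monOff_insert (t : ι → L) (s : Finset (ι)) (i : ι) (hi : i ∉ s) (α : ι → Fin p) :
    monOff t s α = t i ^ (α i : ℕ) * monOff t (insert i s) α := by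
  unfold monOff
  rw [Finset.compl_insert]
  exact (Finset.mul_prod_erase _ _ (Finset.mem_compl.2 hi)).symm

omit hp [CharP L p] in
theorem d_monOff (t : ι → L) (d : ι → Derivation ℤ L L)
    (hd : ∀ i j, d i (t j) = if i = j then 1 else 0) (s : Finset (ι)) (i : ι) (hi : i ∈ s)
    (α : ι → Fin p) : d i (monOff t s α) = 0 := by
  unfold monOff
  refine Finset.prod_induction (fun j => t j ^ (α j : ℕ)) (fun a => d i a = 0) ?_ ?_ ?_
  · intro a b ha hb
    rw [Derivation.leibniz, ha, hb]
    simp
  · exact Derivation.map_one_eq_zero _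
  · intro j hj
    have hij : i ≠ j := by
      rintro rfl
      exact (Finset.mem_compl.1 hj) hi
    rw [Derivation.leibniz_pow, hd, if_neg hij]
    simp

omit hp in
theorem d_pow_p (d : Derivation ℤ L L) (c : L) : d (c ^ p) = 0 := by
  rw [Derivation.leibniz_pow, nsmul_eq_mul, CharP.cast_eq_zero, zero_mul]

/-- The partial coordinate: the sum over the `α` with `α = e` on `s`. -/
def part (t : ι → L) (c : (ι → Fin p) → L) (s : Finset (ι)) (e : ι → Fin p) : L :=
  ∑ α : ι → Fin p, if ∀ i ∈ s, α i = e i then monOff t s α * c α ^ p else 0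

/-- The operation `a ↦ - d^(p-1) (t^(p-1-e) a)`. -/
def op (p : ℕ) (d : Derivation ℤ L L) (t : L) (e : ℕ) (a : L) : L := - (⇑d)^[p - 1] (t ^ (p - 1 - e) * a)

theorem iter_sum {κ : Type*} (d : Derivation ℤ L L) (k : ℕ) (s : Finset κ) (f : κ → L) :
    (⇑d)^[k] (∑ j ∈ s, f j) = ∑ j ∈ s, (⇑d)^[k] (f j) := by
  induction k with
  | zero => rfl
  | succ k ih =>
    rw [Function.iterate_succ_apply', ih, map_sum]
    refine Finset.sum_congr rfl fun j _ => ?_
    rw [Function.iterate_succ_apply']

theorem part_insert (t : ι → L) (d : ι → Derivation ℤ L L)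
    (hd : ∀ i j, d i (t j) = if i = j then 1 else 0) (c : (ι → Fin p) → L) (s : Finset (ι))
    (e : ι → Fin p) (i : ι) (hi : i ∉ s) :
    op p (d i) (t i) (e i) (part t c s e) = part t c (insert i s) e := by
  unfold op part
  rw [Finset.mul_sum, iter_sum, ← Finset.sum_neg_distrib]
  refine Finset.sum_congr rfl fun α _ => ?_
  by_cases h1 : ∀ j ∈ s, α j = e j
  · rw [if_pos h1, monOff_insert t s i hi α]
    have h2 : t i ^ (p - 1 - (e i : ℕ)) * (t i ^ (α i : ℕ) * monOff t (insert i s) α * c α ^ p) =
        t i ^ (p - 1 - (e i : ℕ) + (α i : ℕ)) * (monOff t (insert i s) α * c α ^ p) := by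
      rw [pow_add]
      ring
    have hm : d i (monOff t (insert i s) α * c α ^ p) = 0 := by
      rw [Derivation.leibniz, d_pow_p, d_monOff t d hd (insert i s) i (Finset.mem_insert_self i s) α]
      simp
    have ht : d i (t i) = 1 := by rw [hd, if_pos rfl]
    rw [h2, iter_pow (d i) ht hm]
    by_cases h3 : α i = e i
    · rw [if_pos, h3, cast_desc_eq (e i).isLt]
      · have h4 : p - 1 - (e i : ℕ) + (e i : ℕ) - (p - 1) = 0 := by
          have := (e i).isLt
          omega
        rw [h4]
        ring
      · intro j hj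
        rcases Finset.mem_insert.1 hj with rfl | hj
        · exact h3
        · exact h1 j hj
    · rw [if_neg, cast_desc_ne (α i).isLt (e i).isLt (fun h => h3 (Fin.ext h))]
      · ring
      · intro h4
        exact h3 (h4 i (Finset.mem_insert_self i s))
  · rw [if_neg h1, if_neg, mul_zero]
    · have h0 : ∀ k, (⇑(d i))^[k] (0 : L) = 0 := by
        intro k
        induction k with
        | zero => rfl
        | succ k ih => rw [Function.iterate_succ_apply', ih, map_zero]
      rw [h0, neg_zero]
    · intro h4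
      exact h1 fun j hj => h4 j (Finset.mem_insert_of_mem hj)

omit hp [CharP L p] in
theorem part_empty (t : ι → L) (c : (ι → Fin p) → L) (e : ι → Fin p) :
    part t c ∅ e = ∑ α, mon t α * c α ^ p := by
  unfold part
  refine Finset.sum_congr rfl fun α _ => ?_
  rw [if_pos (by simp)]
  unfold monOff mon
  rw [Finset.compl_empty]

omit hp [CharP L p] in
theorem part_univ (t : ι → L) (c : (ι → Fin p) → L) (e : ι → Fin p) :
    part t c Finset.univ e = c e ^ p := by
  unfold part
  rw [Finset.sum_eq_single e]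
  · rw [if_pos (by simp)]
    unfold monOff
    simp
  · intro α _ hα
    rw [if_neg]
    intro h
    exact hα (funext fun i => h i (Finset.mem_univ i))
  · intro h
    exact absurd (Finset.mem_univ e) h

/-- **Row Z2a.** The `p`-th powers of the coordinates lie in every additive subgroup which is stable under the
derivations and the multiplications by the `t i`. -/
theorem coord_pow_mem (t : ι → L) (d : ι → Derivation ℤ L L)
    (hd : ∀ i j, d i (t j) = if i = j then 1 else 0) (S : AddSubgroup L)
    (hS : ∀ i, ∀ a ∈ S, d i a ∈ S) (htS : ∀ i, ∀ a ∈ S, t i * a ∈ S)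
    (c : (ι → Fin p) → L) (hc : ∑ α, mon t α * c α ^ p ∈ S) (α : ι → Fin p) : c α ^ p ∈ S := by
  have hit : ∀ i k, ∀ a ∈ S, (⇑(d i))^[k] a ∈ S := by
    intro i k a ha
    induction k with
    | zero => exact ha
    | succ k ih =>
      rw [Function.iterate_succ_apply']
      exact hS i _ ih
  have htp : ∀ i k, ∀ a ∈ S, t i ^ k * a ∈ S := by
    intro i k a ha
    induction k with
    | zero => simpa using ha
    | succ k ih =>
      rw [pow_succ', mul_assoc]
      exact htS i _ ih
  have key : ∀ s : Finset (ι), part t c s α ∈ S := by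
    intro s
    induction s using Finset.induction_on with
    | empty =>
      rw [part_empty]
      exact hc
    | insert i s hi ih =>
      rw [← part_insert t d hd c s α i hi]
      exact S.neg_mem (hit i _ _ (htp i _ _ ih))
  rw [← part_univ t c α]
  exact key _

theorem coord_mem (t : ι → L) (d : ι → Derivation ℤ L L)
    (hd : ∀ i j, d i (t j) = if i = j then 1 else 0) (S : AddSubgroup L)
    (hS : ∀ i, ∀ a ∈ S, d i a ∈ S) (htS : ∀ i, ∀ a ∈ S, t i * a ∈ S) (hpS : ∀ a, a ^ p ∈ S → a ∈ S)
    (c : (ι → Fin p) → L) (hc : ∑ α, mon t α * c α ^ p ∈ S) (α : ι → Fin p) : c α ∈ S :=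
  hpS _ (coord_pow_mem t d hd S hS htS c hc α)

/-- The coordinates are unique. -/
theorem coord_unique (t : ι → L) (d : ι → Derivation ℤ L L)
    (hd : ∀ i j, d i (t j) = if i = j then 1 else 0) (c c' : (ι → Fin p) → L)
    (hc : ∑ α, mon t α * c α ^ p = ∑ α, mon t α * c' α ^ p) : c = c' := by
  have h1 : ∑ α, mon t α * (c α - c' α) ^ p ∈ (⊥ : AddSubgroup L) := by
    rw [AddSubgroup.mem_bot]
    have h2 : ∀ α, mon t α * (c α - c' α) ^ p = mon t α * c α ^ p - mon t α * c' α ^ p := by
      intro α
      rw [sub_pow_char]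
      ring
    rw [Finset.sum_congr rfl fun α _ => h2 α, Finset.sum_sub_distrib, hc, sub_self]
  funext α
  have h3 := coord_mem t d hd ⊥ ?_ ?_ ?_ (fun α => c α - c' α) h1 α
  · exact sub_eq_zero.1 h3
  · intro i a ha
    rw [AddSubgroup.mem_bot] at ha ⊢
    rw [ha, map_zero]
  · intro i a ha
    rw [AddSubgroup.mem_bot] at ha ⊢
    rw [ha, mul_zero]
  · intro a ha
    rw [AddSubgroup.mem_bot] at ha ⊢
    exact pow_eq_zero_iff hp.out.ne_zero |>.1 ha

end Coord

end Pool.Agent.ALLh94
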