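import Pool.Agent.Lib.ALL_h94.Z2a
import Pool.Agent.Lib.LU1_h15.Defs

/-!
# ALL, block Z, row Z2b (first part): local rings with `m = (t_1, .., t_n)` have the `p`-basis `t`

`pexp_core`: `R` a subring of a field of characteristic `p`, finite over `R^p`, `R = K0 + (t) R` with `K0` in `R^p`,
`1 + t_i R` in `R^*`. Then `R = ∑_{α < p} t^α R^p` (Nakayama over `R^p`).
-/

set_option autoImplicit false

namespace Pool.Agent.ALLh94

open Finset

variable {L : Type*} [Field L] {p : ℕ} [hp : Fact p.Prime] [CharP L p]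
  {ι : Type*} [Fintype ι] [DecidableEq ι]

/-- The subring `R^p`. -/
def RP (p : ℕ) [Fact p.Prime] [CharP L p] (R : Subring L) : Subring L := R.map (frobenius L p)

theorem mem_RP {R : Subring L} {s : L} : s ∈ RP p R ↔ ∃ r ∈ R, r ^ p = s := by
  unfold RP
  rw [Subring.mem_map]
  rfl

theorem RP_le (R : Subring L) : RP p R ≤ R := by
  intro s hs
  obtain ⟨r, hr, rfl⟩ := mem_RP.1 hs
  exact R.pow_mem hr p

theorem pexp_core (R : Subring L) (t : ι → L) (htR : ∀ i, t i ∈ R)
    (hJ : ∀ i, ∀ r ∈ R, 1 + t i * r ≠ 0 ∧ (1 + t i * r)⁻¹ ∈ R)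
    (hgen : ∀ f ∈ R, ∃ c, (∃ d ∈ R, d ^ p = c) ∧ ∃ a : ι → L, (∀ i, a i ∈ R) ∧ f = c + ∑ i, t i * a i)
    (B : Finset L) (hBR : ∀ b ∈ B, b ∈ R)
    (hB : ∀ f ∈ R, f ∈ Submodule.span (RP p R) (B : Set L)) :
    ∀ f ∈ R, ∃ c : (ι → Fin p) → L, (∀ α, c α ∈ R) ∧ f = ∑ α, mon t α * c α ^ p := by
  classical
  set S := RP p R with hS
  set N : Submodule S L := Submodule.span S (Set.range (mon (p := p) t)) with hN
  set N' : Submodule S L := Submodule.span S (B : Set L) with hN'
  set I : Ideal S := Ideal.span (Set.range fun i => (⟨t i ^ p, mem_RP.2 ⟨t i, htR i, rfl⟩⟩ : S)) with hI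
  have hmem : ∀ f, f ∈ N' ↔ f ∈ R := by
    intro f
    refine ⟨fun hf => ?_, hB f⟩
    refine Submodule.span_induction (p := fun x _ => x ∈ R) ?_ ?_ ?_ ?_ hf
    · intro x hx
      exact hBR x hx
    · exact R.zero_mem
    · intro x y _ _ hx hy
      exact R.add_mem hx hy
    · intro s x _ hx
      exact R.mul_mem (RP_le R s.2) hx
  have hbig : ∀ (β : ι → ℕ) (i : ι), p ≤ β i → ∀ f ∈ R, (∏ j, t j ^ β j) * f ∈ N ⊔ I • N' := by
    intro β i hi f hf
    refine Submodule.mem_sup_right ?_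
    have h1 : (∏ j, t j ^ β j) * f = t i ^ p * (t i ^ (β i - p) * (∏ j ∈ Finset.univ.erase i, t j ^ β j) * f) := by
      rw [← Finset.mul_prod_erase Finset.univ (fun j => t j ^ β j) (Finset.mem_univ i)]
      have h2 : t i ^ β i = t i ^ p * t i ^ (β i - p) := by
        rw [← pow_add]
        congr 1
        omega
      rw [h2]
      ring
    rw [h1]
    have h3 : (⟨t i ^ p, mem_RP.2 ⟨t i, htR i, rfl⟩⟩ : S) ∈ I := Ideal.subset_span ⟨i, rfl⟩
    have h4 : t i ^ (β i - p) * (∏ j ∈ Finset.univ.erase i, t j ^ β j) * f ∈ N' := by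
      rw [hmem]
      refine R.mul_mem (R.mul_mem (R.pow_mem (htR i) _) ?_) hf
      exact R.prod_mem fun j _ => R.pow_mem (htR j) _
    exact Submodule.smul_mem_smul h3 h4
  have hstep : ∀ (K : ℕ) (β : ι → ℕ), Fintype.card ι * (p - 1) + 1 ≤ K + ∑ i, β i → ∀ f ∈ R,
      (∏ j, t j ^ β j) * f ∈ N ⊔ I • N' := by
    intro K
    induction K with
    | zero =>
      intro β hβ f hf
      obtain ⟨i, hi⟩ : ∃ i, p ≤ β i := by
        by_contra hcon
        push Not at hcon
        have h1 : ∑ i, β i ≤ ∑ _i : ι, (p - 1) := Finset.sum_le_sum fun i _ => by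
          have := hcon i
          omega
        rw [Finset.sum_const, Finset.card_univ, smul_eq_mul] at h1
        omega
      exact hbig β i hi f hf
    | succ K ih =>
      intro β hβ f hf
      by_cases hcase : ∃ i, p ≤ β i
      · obtain ⟨i, hi⟩ := hcase
        exact hbig β i hi f hf
      · push Not at hcase
        obtain ⟨c, ⟨d, hd, rfl⟩, a, ha, rfl⟩ := hgen f hf
        rw [mul_add, Finset.mul_sum]
        refine Submodule.add_mem _ ?_ (Submodule.sum_mem _ fun i _ => ?_)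
        · refine Submodule.mem_sup_left ?_
          have h1 : (∏ j, t j ^ β j) * d ^ p =
              (⟨d ^ p, mem_RP.2 ⟨d, hd, rfl⟩⟩ : S) • mon (p := p) t (fun j => ⟨β j, hcase j⟩) := by
            rw [Subring.smul_def]
            change _ = d ^ p * mon (p := p) t (fun j => ⟨β j, hcase j⟩)
            unfold mon
            rw [mul_comm]
          rw [h1]
          exact Submodule.smul_mem _ _ (Submodule.subset_span ⟨_, rfl⟩)
        · have h1 : (∏ j, t j ^ β j) * (t i * a i) =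
              (∏ j, t j ^ (Function.update β i (β i + 1) j)) * a i := by
            rw [← Finset.mul_prod_erase Finset.univ (fun j => t j ^ β j) (Finset.mem_univ i),
              ← Finset.mul_prod_erase Finset.univ (fun j => t j ^ (Function.update β i (β i + 1) j))
                (Finset.mem_univ i), Function.update_self, pow_succ]
            have h2 : ∏ j ∈ Finset.univ.erase i, t j ^ (Function.update β i (β i + 1) j) =
                ∏ j ∈ Finset.univ.erase i, t j ^ β j := by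
              refine Finset.prod_congr rfl fun j hj => ?_
              rw [Function.update_of_ne (Finset.ne_of_mem_erase hj)]
            rw [h2]
            ring
          rw [h1]
          refine ih _ ?_ _ (ha i)
          have h3 : ∑ j, Function.update β i (β i + 1) j = ∑ j, β j + 1 := by
            rw [← Finset.add_sum_erase Finset.univ β (Finset.mem_univ i),
              ← Finset.add_sum_erase Finset.univ (Function.update β i (β i + 1)) (Finset.mem_univ i),
              Function.update_self]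
            have h4 : ∑ j ∈ Finset.univ.erase i, Function.update β i (β i + 1) j =
                ∑ j ∈ Finset.univ.erase i, β j := by
              refine Finset.sum_congr rfl fun j hj => ?_
              rw [Function.update_of_ne (Finset.ne_of_mem_erase hj)]
            rw [h4]
            ring
          rw [h3]
          omega
  have hNN : N' ≤ N ⊔ I • N' := by
    intro f hf
    have h1 := hstep (Fintype.card ι * (p - 1) + 1) (fun _ => 0) (by omega) f ((hmem f).1 hf)
    simpa using h1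
  have hIJ : I ≤ Ideal.jacobson ⊥ := by
    rw [hI, Ideal.span_le]
    rintro _ ⟨i, rfl⟩
    refine Ideal.mem_jacobson_bot.2 fun y => ?_
    obtain ⟨r, hr, hry⟩ := mem_RP.1 y.2
    obtain ⟨h1, h2⟩ := hJ i r hr
    have h3 : ((⟨t i ^ p, mem_RP.2 ⟨t i, htR i, rfl⟩⟩ : S) * y + 1 : S) =
        (⟨(1 + t i * r) ^ p, mem_RP.2 ⟨_, R.add_mem R.one_mem (R.mul_mem (htR i) hr), rfl⟩⟩ : S) := by
      apply Subtype.ext
      change t i ^ p * (y : L) + 1 = (1 + t i * r) ^ p
      rw [← hry, add_pow_char, one_pow, mul_pow]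
      ring
    rw [h3]
    refine IsUnit.of_mul_eq_one (⟨((1 + t i * r)⁻¹) ^ p, mem_RP.2 ⟨_, h2, rfl⟩⟩ : S) ?_
    apply Subtype.ext
    change (1 + t i * r) ^ p * ((1 + t i * r)⁻¹) ^ p = 1
    rw [← mul_pow, mul_inv_cancel₀ h1, one_pow]
  have hle : N' ≤ N := Submodule.le_of_le_smul_of_le_jacobson_bot (Submodule.fg_span B.finite_toSet) hIJ hNN
  intro f hf
  have h1 : f ∈ N := hle ((hmem f).2 hf)
  rw [hN, Submodule.mem_span_range_iff_exists_fun] at h1
  obtain ⟨s, hs⟩ := h1
  have h2 : ∀ α, ∃ r ∈ R, r ^ p = (s α : L) := fun α => mem_RP.1 (s α).2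
  choose c hc hcs using h2
  refine ⟨c, hc, ?_⟩
  rw [← hs]
  refine Finset.sum_congr rfl fun α _ => ?_
  rw [Subring.smul_def, smul_eq_mul, hcs, mul_comm]

section Locv

open Pool.Agent.H15JM (RVal)
open Pool.Agent.LU1 (VPos locv)

universe u

variable {k Ω : Type u} [Field k] [Field Ω] [Algebra k Ω] [CharP Ω p]

/-- `k[A]` lies in the `R^p`-span of the monomials in `A` of degree `< p` in every variable. -/
theorem adjoin_span (hk : ∀ c : k, ∃ d : k, d ^ p = c) (A : Finset Ω) (R : Subring Ω)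
    (hkR : ∀ c : k, algebraMap k Ω c ∈ R) (hA : ∀ a ∈ A, a ∈ R) {f : Ω}
    (hf : f ∈ Algebra.adjoin k (A : Set Ω)) :
    f ∈ Submodule.span (RP p R) (Set.range fun e : A → Fin p => ∏ a : A, (a : Ω) ^ (e a : ℕ)) := by
  classical
  set N := Submodule.span (RP p R) (Set.range fun e : A → Fin p => ∏ a : A, (a : Ω) ^ (e a : ℕ)) with hN
  have h1 : f ∈ Subalgebra.toSubmodule (Algebra.adjoin k (A : Set Ω)) := hf
  rw [Algebra.adjoin_eq_span] at h1
  refine Submodule.span_induction (p := fun x _ => x ∈ N) ?_ N.zero_mem (fun x y _ _ hx hy => N.add_mem hx hy) ?_ h1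
  · intro x hx
    obtain ⟨g, _, hg⟩ := Submonoid.mem_closure_finset.1 hx
    have h2 : x = (∏ a ∈ A, a ^ (g a / p)) ^ p * ∏ a ∈ A, a ^ (g a % p) := by
      rw [← hg, ← Finset.prod_pow, ← Finset.prod_mul_distrib]
      refine Finset.prod_congr rfl fun a _ => ?_
      rw [← pow_mul, ← pow_add]
      congr 1
      rw [mul_comm]
      exact (Nat.div_add_mod (g a) p).symm
    have h3 : ∏ a ∈ A, a ^ (g a % p) =
        ∏ a : A, (a : Ω) ^ (((⟨g a % p, Nat.mod_lt _ hp.out.pos⟩ : Fin p)) : ℕ) := by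
      rw [← Finset.prod_coe_sort]
    have h4 : x = (⟨(∏ a ∈ A, a ^ (g a / p)) ^ p,
        mem_RP.2 ⟨_, R.prod_mem fun a ha => R.pow_mem (hA a ha) _, rfl⟩⟩ : RP p R) •
          ∏ a : A, (a : Ω) ^ (((⟨g a % p, Nat.mod_lt _ hp.out.pos⟩ : Fin p)) : ℕ) := by
      rw [Subring.smul_def, smul_eq_mul, ← h3]
      exact h2
    rw [h4]
    exact N.smul_mem _ (Submodule.subset_span ⟨fun a => ⟨g a % p, Nat.mod_lt _ hp.out.pos⟩, rfl⟩)
  · intro c x _ hx
    obtain ⟨d, rfl⟩ := hk c
    have h2 : (d ^ p) • x = (⟨(algebraMap k Ω d) ^ p, mem_RP.2 ⟨_, hkR d, rfl⟩⟩ : RP p R) • x := by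
      rw [Algebra.smul_def, Subring.smul_def, smul_eq_mul, map_pow]
    rw [h2]
    exact N.smul_mem _ hx

/-- **Row Z2b (noetherian frames).** If `R = locv k[A]`, `A` finite, `k` perfect, the residue field is `k` and the
elements of positive value form the ideal `(t_1, .., t_n)`, then `R = ∑_{α < p} t^α R^p`. -/
theorem pexp_locv (hk : ∀ c : k, ∃ d : k, d ^ p = c) (v : RVal Ω) (A : Finset Ω) (R : Subalgebra k Ω)
    (hR : R = locv v (Algebra.adjoin k (A : Set Ω)))
    (hinv : ∀ f ∈ R, f ≠ 0 → v f = 0 → f⁻¹ ∈ R)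
    (hres : ∀ f ∈ R, ∃ c : k, VPos v (f - algebraMap k Ω c))
    (hnn : ∀ f ∈ R, v.Ge 0 f)
    (t : ι → Ω) (htR : ∀ i, t i ∈ R) (htp : ∀ i, VPos v (t i))
    (hgen : ∀ f ∈ R, VPos v f → ∃ a : ι → Ω, (∀ i, a i ∈ R) ∧ f = ∑ i, t i * a i) :
    ∀ f ∈ R, ∃ c : (ι → Fin p) → Ω, (∀ α, c α ∈ R) ∧ f = ∑ α, mon t α * c α ^ p := by
  classical
  have hA : ∀ a ∈ A, a ∈ R := by
    intro a ha
    rw [hR]
    exact ⟨a, Algebra.subset_adjoin ha, 1, Subalgebra.one_mem _, one_ne_zero, v.map_one, by rw [div_one]⟩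
  refine pexp_core R.toSubring t htR ?_ ?_
    ((Set.finite_range fun e : A → Fin p => ∏ a : A, (a : Ω) ^ (e a : ℕ)).toFinset) ?_ ?_
  · intro i r hr
    have hr' : r ∈ R := hr
    by_cases h0 : t i * r = 0
    · rw [h0, add_zero, inv_one]
      exact ⟨one_ne_zero, R.one_mem⟩
    · have hti : t i ≠ 0 := left_ne_zero_of_mul h0
      have hr0 : r ≠ 0 := right_ne_zero_of_mul h0
      have hpos : v 1 < v (t i * r) := by
        rw [v.map_one, v.map_mul hti hr0]
        have h1 := htp i hti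
        have h2 := hnn r hr' hr0
        linarith
      obtain ⟨h1, h2⟩ := v.add_of_lt one_ne_zero h0 hpos
      refine ⟨h1, hinv _ ?_ h1 ?_⟩
      · exact R.add_mem R.one_mem (R.mul_mem (htR i) hr')
      · rw [h2, v.map_one]
  · intro f hf
    obtain ⟨c, hc⟩ := hres f hf
    obtain ⟨a, ha, hfa⟩ := hgen _ (R.sub_mem hf (R.algebraMap_mem c)) hc
    obtain ⟨d, rfl⟩ := hk c
    refine ⟨algebraMap k Ω (d ^ p), ⟨algebraMap k Ω d, R.algebraMap_mem d, by rw [map_pow]⟩, a, ha, ?_⟩
    rw [← hfa]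
    ring
  · intro b hb
    rw [Set.Finite.mem_toFinset] at hb
    obtain ⟨e, rfl⟩ := hb
    exact R.prod_mem fun a _ => R.pow_mem (hA _ a.2) _
  · intro f hf
    have hf' : f ∈ R := hf
    rw [hR] at hf'
    obtain ⟨a, ha, b, hb, hb0, hvb, rfl⟩ := hf'
    rw [Set.Finite.coe_toFinset]
    have hbR : b ∈ R := by
      rw [hR]
      exact ⟨b, hb, 1, Subalgebra.one_mem _, one_ne_zero, v.map_one, by rw [div_one]⟩
    have hbi : b⁻¹ ∈ R := hinv b hbR hb0 hvb
    have h1 : a * b ^ (p - 1) ∈ Algebra.adjoin k (A : Set Ω) := Subalgebra.mul_mem _ ha (Subalgebra.pow_mem _ hb _)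
    have h2 := adjoin_span (p := p) hk A R.toSubring (fun c => R.algebraMap_mem c) hA h1
    have h3 : a / b = (⟨(b⁻¹) ^ p, mem_RP.2 ⟨_, hbi, rfl⟩⟩ : RP p R.toSubring) • (a * b ^ (p - 1)) := by
      rw [Subring.smul_def, smul_eq_mul]
      change a / b = (b⁻¹) ^ p * (a * b ^ (p - 1))
      have h4 : b ^ p = b ^ (p - 1) * b := by
        rw [← pow_succ]
        congr 1
        have := hp.out.pos
        omega
      rw [inv_pow, h4]
      field_simp
    rw [h3]
    exact Submodule.smul_mem _ _ h2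

end Locv

end Pool.Agent.ALLh94
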